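import Pool.Agent.V5helper35.CA.Stm2

/-!
# Project CA, job PAT: the coefficients of a product of syllables
-/

set_option autoImplicit false

namespace Pool.Agent.V5helper23.CA

open Pool.Agent.V5helper35.CA Pool.Agent.V5helper35.CA.NC

variable {R : Type} [CommRing R] {n : ℕ}

/-- a product vanishes on a word if the first factor vanishes on all its prefixes -/
lemma mul_zero_prefix {g : NC R n} : ∀ (w : List (Fin n)) (f : NC R n),
    (∀ x, x <+: w → f x = 0) → (f * g) w = 0 := by
  intro w
  induction w with
  | nil =>
    intro f h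
    rw [mul_nil, h [] (List.prefix_refl _), zero_mul]
  | cons i w ih =>
    intro f h
    rw [mul_cons, h [] (List.nil_prefix), zero_mul, zero_add]
    apply ih
    intro x hx
    rw [der_apply]
    exact h _ ((List.prefix_cons_inj i).2 hx)

/-- only the constant term of the first factor matters -/
lemma mul_const_prefix {g : NC R n} (w : List (Fin n)) (f : NC R n)
    (h : ∀ x, x ≠ [] → x <+: w → f x = 0) : (f * g) w = f [] * g w := by
  cases w with
  | nil => rfl
  | cons i w =>
    rw [mul_cons]
    have : (der i f * g) w = 0 := by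
      apply mul_zero_prefix
      intro x hx
      rw [der_apply]
      exact h _ (List.cons_ne_nil _ _) ((List.prefix_cons_inj i).2 hx)
    rw [this, add_zero]

/-- the series is that of a power of `x_i` on words without equal neighbours -/
def Pw (i : Fin n) (a : R) (f : NC R n) : Prop :=
  ∀ v : List (Fin n), v.IsChain (· ≠ ·) → f v = if v = [] then 1 else if v = [i] then a else 0

lemma Pw.nil {i : Fin n} {a : R} {f : NC R n} (h : Pw i a f) : f [] = 1 := by
  rw [h [] (by simp), if_pos rfl]

lemma Pw.one {i : Fin n} {a : R} {f : NC R n} (h : Pw i a f) (j : Fin n) :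
    f [j] = if j = i then a else 0 := by
  rw [h [j] (by simp), if_neg (List.cons_ne_nil _ _)]
  simp

lemma Pw.two {i : Fin n} {a : R} {f : NC R n} (h : Pw i a f) {j k : Fin n} {v : List (Fin n)}
    (hv : (j :: k :: v).IsChain (· ≠ ·)) : f (j :: k :: v) = 0 := by
  rw [h _ hv, if_neg (List.cons_ne_nil _ _), if_neg]
  intro h1
  simp at h1

lemma chain_prefix {x w : List (Fin n)} (h : x <+: w) (hw : w.IsChain (· ≠ ·)) :
    x.IsChain (· ≠ ·) := by
  obtain ⟨t, rfl⟩ := h
  exact (List.isChain_append.1 hw).1

/-- the derivative of the series of a power -/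
lemma Pw.der_mul {i : Fin n} {a : R} {f : NC R n} (h : Pw i a f) (g : NC R n) {j : Fin n}
    {w : List (Fin n)} (hw : (j :: w).IsChain (· ≠ ·)) :
    (der j f * g) w = (if j = i then a else 0) * g w := by
  rw [mul_const_prefix, der_apply, h.one]
  intro x hx hxw
  obtain ⟨k, u, rfl⟩ := List.exists_cons_of_ne_nil hx
  rw [der_apply]
  exact h.two (chain_prefix ((List.prefix_cons_inj j).2 hxw) hw)

lemma Pw.mul {i : Fin n} {a b : R} {f g : NC R n} (hf : Pw i a f) (hg : Pw i b g) :
    Pw i (a + b) (f * g) := by
  intro v hv
  rcases v with _ | ⟨j, w⟩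
  · rw [mul_nil, hf.nil, hg.nil, if_pos rfl, one_mul]
  · rw [mul_cons, hf.nil, one_mul, hf.der_mul g hv, if_neg (List.cons_ne_nil _ _)]
    rcases w with _ | ⟨k, u⟩
    · rw [hg.one, hg.nil]
      by_cases h : j = i
      · rw [if_pos h, if_pos h, if_pos (by rw [h]), mul_one, add_comm]
      · have h0 : ¬ [j] = [i] := fun h1 => h (List.cons.inj h1).1
        rw [if_neg h, if_neg h, if_neg h0, zero_mul, add_zero]
    · have h0 : ¬ (j :: k :: u) = [i] := by simp
      rw [hg.two hv, zero_add, if_neg h0]
      by_cases h : j = i
      · have hjk : j ≠ k := by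
          rw [List.isChain_cons_cons] at hv
          exact hv.1
        have hw : (k :: u).IsChain (· ≠ ·) := by
          rw [List.isChain_cons_cons] at hv
          exact hv.2
        have h2 : ¬ (k :: u) = [i] := fun h1 => hjk (h.trans (List.cons.inj h1).1.symm)
        rw [hg _ hw, if_neg (List.cons_ne_nil _ _), if_neg h2, mul_zero]
      · rw [if_neg h, zero_mul]

lemma Pw.unit (i : Fin n) : Pw i (0 : R) (1 : NC R n) := by
  intro v _
  rw [one_apply]
  split_ifs <;> rfl

lemma pw_of (i : Fin n) : Pw i (1 : R) (mag R (FreeGroup.of i)) := by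
  intro v _
  rw [mag_of]
  rcases v with _ | ⟨j, w⟩
  · simp
  · rw [NC.add_apply, one_cons, zero_add, if_neg (List.cons_ne_nil _ _)]
    rfl

lemma pw_inv (i : Fin n) : Pw i (-1 : R) (mag R (FreeGroup.of i)⁻¹) := by
  intro v hv
  rw [mag_of_inv]
  rcases v with _ | ⟨j, w⟩
  · simp [invX]
  · rw [if_neg (List.cons_ne_nil _ _)]
    rcases w with _ | ⟨k, u⟩
    · by_cases h : j = i
      · subst h
        simp [invX]
      · simp [invX, h]
    · rw [if_neg (by simp)]
      unfold invX
      rw [if_neg]
      intro h
      rw [List.isChain_cons_cons] at hv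
      apply hv.1
      rw [h j (by simp), h k (by simp)]

lemma pw_zpow (i : Fin n) (e : ℤ) : Pw i (e : R) (mag R (FreeGroup.of i ^ e)) := by
  induction e using Int.induction_on with
  | zero =>
    rw [zpow_zero, map_one, Int.cast_zero]
    exact Pw.unit i
  | succ k ih =>
    rw [zpow_add_one, map_mul, Int.cast_add, Int.cast_one]
    exact ih.mul (pw_of i)
  | pred k ih =>
    rw [zpow_sub_one, map_mul, Int.cast_sub, Int.cast_one, sub_eq_add_neg]
    exact ih.mul (pw_inv i)

/-- PAT -/
theorem t_PAT : S_PAT := by
  intro n s
  induction s with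
  | nil =>
    intro v _ _
    simp only [syl, List.map_nil, List.prod_nil, map_one]
    rw [one_apply]
  | cons p s ih =>
    intro v hl hv
    obtain ⟨i, e⟩ := p
    rcases v with _ | ⟨j, w⟩
    · simp at hl
    · rw [List.length_cons, List.length_cons] at hl
      have hpw := pw_zpow (R := ℤ) i e
      have hw : w.IsChain (· ≠ ·) := hv.tail
      have e1 : syl ((i, e) :: s) = FreeGroup.of i ^ e * syl s := by
        simp [syl]
      rw [e1, map_mul, mul_cons, hpw.nil, one_mul, hpw.der_mul _ hv,
        ih (j :: w) (by rw [List.length_cons]; omega) hv, ih w (by omega) hw, if_neg, zero_add]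
      · by_cases h : j = i
        · by_cases h' : w = s.map Prod.fst
          · rw [if_pos h, if_pos h', if_pos (by rw [h, h']; rfl)]
            simp
          · rw [if_neg h', mul_zero, if_neg]
            intro h1
            rw [List.map_cons, List.cons.injEq] at h1
            exact h' h1.2
        · rw [if_neg h, zero_mul, if_neg]
          intro h1
          rw [List.map_cons, List.cons.injEq] at h1
          exact h h1.1
      · intro h1
        have h2 := congrArg List.length h1
        rw [List.length_cons, List.length_map] at h2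
        omega

end Pool.Agent.V5helper23.CA
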